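import Pool.Agent.Lib_helper76.MC10g.Dat

/-!
# c10g: the trivial relations
-/

set_option autoImplicit false
set_option maxRecDepth 100000

namespace Pool.Agent.MC10g

open Pool.Agent.KC72 Pool.Agent.MC

theorem c10g_t0 : blk (cT c10g c10g_t) c10g.T 40 0 = true := by decide +kernel

theorem c10g_t1 : blk (cT c10g c10g_t) c10g.T 40 1 = true := by decide +kernel

theorem c10g_t2 : blk (cT c10g c10g_t) c10g.T 40 2 = true := by decide +kernel

theorem c10g_t3 : blk (cT c10g c10g_t) c10g.T 40 3 = true := by decide +kernel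

theorem c10g_t4 : blk (cT c10g c10g_t) c10g.T 40 4 = true := by decide +kernel

theorem c10g_t' : ∀ k < 5, blk (cT c10g c10g_t) c10g.T 40 k = true
  | 0, _ => c10g_t0
  | 1, _ => c10g_t1
  | 2, _ => c10g_t2
  | 3, _ => c10g_t3
  | 4, _ => c10g_t4
  | k + 5, h => absurd h (by omega)

end Pool.Agent.MC10g
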