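import Pool.Agent.Lib_helper76.MC10g.Q
import Pool.Agent.Lib_helper76.MC10g.T

/-!
# c10g: all checks
-/

set_option autoImplicit false
set_option maxRecDepth 100000

namespace Pool.Agent.MC10g

open Pool.Agent.KC72 Pool.Agent.MC

theorem c10g_0 : Num c10g c10g_t := by decide +kernel

theorem c10g_om : xm c10g.kb c10g.ko (c10g.m * c10g.N) c10g.Om = true := by decide +kernel

theorem c10g_b : cB c10g = true := by decide +kernel

theorem c10g_r0 : blk (cR c10g) c10g.rels 60 0 = true := by decide +kernel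

theorem c10g_r1 : blk (cR c10g) c10g.rels 60 1 = true := by decide +kernel

theorem c10g_r2 : blk (cR c10g) c10g.rels 60 2 = true := by decide +kernel

theorem c10g_r' : ∀ k < 3, blk (cR c10g) c10g.rels 60 k = true
  | 0, _ => c10g_r0
  | 1, _ => c10g_r1
  | 2, _ => c10g_r2
  | k + 3, h => absurd h (by omega)

theorem c10g_g : allI (fun c g => cG c10g.DG c10g_t.B c10g_t.MA c10g_t.P2 c10g_t.MB c g) c10g.G 0 = true := by decide +kernel

theorem c10g_g' : c10g.toCert.chk3' = true := by decide +kernel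

theorem c10g_k1 : (c10g.cls.take c10g.m).map (prF c10g_t.p c10g.n c10g.r) = c10g_t.PR := by decide +kernel

theorem c10g_k2 : (c10g.cls.take c10g.m).map (pkw (Int.ofNat c10g_t.Z) (Int.ofNat (Nat.pow c10g_t.Z c10g.n)) c10g.r) = c10g_t.PM := by decide +kernel

theorem c10g_k3 : c10g_t.P2.map (fun x => pmb (Int.ofNat c10g_t.B) x.1 x.2 (c10g.cls.take c10g.m)) = c10g_t.MB := by decide +kernel

theorem c10g_e : c10g.cls.all (fun e => bdE c10g_t.MA c10g.n e.1.2 && bdE c10g_t.MA c10g.n e.2.2) = true := by decide +kernel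

theorem c10g_xq : c10g_t.XQ.all (fun X => X.all (xm c10g_t.a c10g_t.d c10g_t.S)) = true := by decide +kernel

theorem c10g_xt : c10g_t.XT.all (fun X => X.all (xm c10g_t.a' c10g_t.d' c10g_t.K)) = true := by decide +kernel

/-- all checks -/
theorem c10g_ok : ROk c10g :=
  rOk_of (A := c10g_t) (l4 := 60) (n4 := 3) (lQ := 40) (nQ := 6) (lT := 40) (nT := 5) c10g_0 c10g_om c10g_b
    (by decide) (by decide +kernel) c10g_r' c10g_g c10g_g' ⟨c10g_k1, c10g_k2, c10g_k3⟩ c10g_e c10g_xq c10g_xt (by decide) (by decide +kernel) c10g_q'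
    (by decide) (by decide +kernel) c10g_t'

end Pool.Agent.MC10g
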